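import Mathlib

/-!
# Limits of sums over the modes

A dominated convergence theorem for Riemann sums in one variable which are summed over `ℤ × ℤ`.
-/

open MeasureTheory Filter Topology

namespace Run7.h281.QW

noncomputable section

/-- the step function -/
def stp (u : ℤ → ℂ) (h : ℝ) (m : ℕ) (p : ℝ) : ℂ :=
  if ⌊p / h⌋ ∈ Finset.Ico (-(m : ℤ)) m then u ⌊p / h⌋ else 0

lemma stp_eq (u : ℤ → ℂ) (h : ℝ) (m : ℕ) (hh : 0 < h) (p : ℝ) :
    stp u h m p = ∑ a ∈ Finset.Ico (-(m : ℤ)) m,
      Set.indicator (Set.Ico (a * h) ((a + 1) * h)) (fun _ => u a) p := by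
  have key : ∀ a : ℤ, p ∈ Set.Ico (a * h) ((a + 1) * h) ↔ ⌊p / h⌋ = a := by
    intro a
    rw [Set.mem_Ico, Int.floor_eq_iff, le_div_iff₀ hh, div_lt_iff₀ hh]
  unfold stp
  split_ifs with hp
  · rw [Finset.sum_eq_single_of_mem _ hp]
    · rw [Set.indicator_of_mem ((key _).mpr rfl)]
    · intro b _ hb
      rw [Set.indicator_of_notMem]
      rw [key]
      exact fun h => hb h.symm
  · symm
    apply Finset.sum_eq_zero
    intro a ha
    rw [Set.indicator_of_notMem]
    rw [key]
    rintro rfl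
    exact hp ha

lemma integral_stp (u : ℤ → ℂ) (h : ℝ) (m : ℕ) (hh : 0 < h) :
    ∫ p, stp u h m p = h * ∑ a ∈ Finset.Ico (-(m : ℤ)) m, u a := by
  have h1 : (fun p => stp u h m p) = fun p => ∑ a ∈ Finset.Ico (-(m : ℤ)) m,
      Set.indicator (Set.Ico ((a : ℝ) * h) ((a + 1) * h)) (fun _ => u a) p := by
    funext p
    exact stp_eq u h m hh p
  have hvol : ∀ a : ℤ, volume (Set.Ico ((a : ℝ) * h) ((a + 1) * h)) = ENNReal.ofReal h := by
    intro a
    rw [Real.volume_Ico]
    congr 1
    ring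
  rw [h1, integral_finsetSum]
  · rw [Finset.mul_sum]
    refine Finset.sum_congr rfl fun a _ => ?_
    rw [integral_indicator measurableSet_Ico, setIntegral_const]
    rw [Measure.real, hvol, ENNReal.toReal_ofReal hh.le, Complex.real_smul]
  · intro a _
    refine IntegrableOn.integrable_indicator ?_ measurableSet_Ico
    refine integrableOn_const ?_
    rw [hvol]
    exact ENNReal.ofReal_ne_top

lemma aesm_stp (u : ℤ → ℂ) (h : ℝ) (m : ℕ) (hh : 0 < h) :
    AEStronglyMeasurable (stp u h m) volume := by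
  have h1 : stp u h m = fun p => ∑ a ∈ Finset.Ico (-(m : ℤ)) m,
      Set.indicator (Set.Ico ((a : ℝ) * h) ((a + 1) * h)) (fun _ => u a) p := by
    funext p
    exact stp_eq u h m hh p
  rw [h1]
  refine Measurable.aestronglyMeasurable ?_
  refine Finset.measurable_sum _ fun a _ => ?_
  exact measurable_const.indicator measurableSet_Ico

lemma integrable_exp_abs (c0 : ℝ) (hc : 0 < c0) :
    Integrable (fun p : ℝ => Real.exp (-(c0 * |p|))) := by
  rw [← integrableOn_univ, ← Set.Iic_union_Ioi (a := (0 : ℝ)), integrableOn_union]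
  constructor
  · refine (integrableOn_exp_mul_Iic hc 0).congr_fun (fun p hp => ?_) measurableSet_Iic
    show Real.exp (c0 * p) = Real.exp (-(c0 * |p|))
    rw [abs_of_nonpos hp]
    congr 1
    ring
  · refine (integrableOn_exp_mul_Ioi (a := -c0) (by linarith) 0).congr_fun (fun p hp => ?_)
      measurableSet_Ioi
    show Real.exp (-c0 * p) = Real.exp (-(c0 * |p|))
    rw [abs_of_pos hp]
    congr 1
    ring

lemma summable_exp_abs (c0 : ℝ) (hc : 0 < c0) :
    Summable (fun n : ℤ => Real.exp (-(c0 * |(n : ℝ)|))) := by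
  have hg : Summable (fun n : ℕ => Real.exp (-(c0 * |((n : ℤ) : ℝ)|))) := by
    have h1 : Summable (fun n : ℕ => Real.exp (-c0) ^ n) :=
      summable_geometric_of_lt_one (Real.exp_pos _).le (by simpa using hc)
    refine h1.congr fun n => ?_
    rw [← Real.exp_nat_mul]
    congr 1
    simp
    ring
  refine Summable.of_nat_of_neg hg ?_
  refine hg.congr fun n => ?_
  simp

/-- dominated convergence for Riemann sums over the modes -/
theorem riemann (u : ℕ → ℤ → ℤ × ℤ → ℂ) (h : ℕ → ℝ) (m : ℕ → ℕ) (W : ℕ → Finset (ℤ × ℤ))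
    (L : ℤ × ℤ → ℝ → ℂ) (B c0 : ℝ) (hc0 : 0 < c0) (hh : ∀ i, 0 < h i)
    (hb : ∀ (i : ℕ) (p : ℝ) (c : ℤ × ℤ), c ∈ W i → ⌊p / h i⌋ ∈ Finset.Ico (-(m i : ℤ)) (m i) →
      ‖u i ⌊p / h i⌋ c‖ ≤ B * Real.exp (-(c0 * (|p| + |(c.1 : ℝ)| + |(c.2 : ℝ)|))))
    (hl : ∀ (c : ℤ × ℤ) (p : ℝ), Tendsto (fun i =>
      if ⌊p / h i⌋ ∈ Finset.Ico (-(m i : ℤ)) (m i) ∧ c ∈ W i then u i ⌊p / h i⌋ c else 0)
      atTop (𝓝 (L c p))) :
    Tendsto (fun i => (h i : ℂ) * ∑ a ∈ Finset.Ico (-(m i : ℤ)) (m i), ∑ c ∈ W i, u i a c)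
      atTop (𝓝 (∑' c, ∫ p, L c p)) := by
  classical
  -- the sum over `c` of the integrals of the step functions
  set S : ℕ → ℤ × ℤ → ℝ → ℂ := fun i c p => if c ∈ W i then stp (fun a => u i a c) (h i) (m i) p
    else 0 with hS
  have hSeq : ∀ i c p, S i c p =
      if ⌊p / h i⌋ ∈ Finset.Ico (-(m i : ℤ)) (m i) ∧ c ∈ W i then u i ⌊p / h i⌋ c else 0 := by
    intro i c p
    simp only [hS, stp]
    by_cases h1 : c ∈ W i <;> by_cases h2 : ⌊p / h i⌋ ∈ Finset.Ico (-(m i : ℤ)) (m i) <;>
      simp [h1, h2]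
  have hB : 0 ≤ |B| := abs_nonneg B
  have hSb : ∀ i c p, ‖S i c p‖ ≤
      |B| * (Real.exp (-(c0 * |(c.1 : ℝ)|)) * Real.exp (-(c0 * |(c.2 : ℝ)|))) *
        Real.exp (-(c0 * |p|)) := by
    intro i c p
    rw [hSeq]
    split_ifs with h1
    · refine (hb i p c h1.2 h1.1).trans ?_
      have h2 : Real.exp (-(c0 * (|p| + |(c.1 : ℝ)| + |(c.2 : ℝ)|))) =
          Real.exp (-(c0 * |(c.1 : ℝ)|)) * Real.exp (-(c0 * |(c.2 : ℝ)|)) *
            Real.exp (-(c0 * |p|)) := by
        rw [← Real.exp_add, ← Real.exp_add]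
        congr 1
        ring
      rw [h2, mul_assoc |B|]
      exact mul_le_mul_of_nonneg_right (le_abs_self B) (by positivity)
    · rw [norm_zero]
      positivity
  have hmeas : ∀ i c, AEStronglyMeasurable (S i c) volume := by
    intro i c
    by_cases h1 : c ∈ W i
    · have : S i c = stp (fun a => u i a c) (h i) (m i) := by
        funext p
        simp [hS, h1]
      rw [this]
      exact aesm_stp _ _ _ (hh i)
    · have : S i c = fun _ => 0 := by
        funext p
        simp [hS, h1]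
      rw [this]
      exact aestronglyMeasurable_const
  have hI := integrable_exp_abs c0 hc0
  -- the integrals converge
  have hint : ∀ c, Tendsto (fun i => ∫ p, S i c p) atTop (𝓝 (∫ p, L c p)) := by
    intro c
    refine tendsto_integral_of_dominated_convergence (fun p =>
      |B| * (Real.exp (-(c0 * |(c.1 : ℝ)|)) * Real.exp (-(c0 * |(c.2 : ℝ)|))) *
        Real.exp (-(c0 * |p|))) (fun i => hmeas i c) (hI.const_mul _) ?_ ?_
    · intro i
      exact Filter.Eventually.of_forall fun p => hSb i c p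
    · refine Filter.Eventually.of_forall fun p => ?_
      refine (hl c p).congr fun i => ?_
      rw [hSeq]
  -- the sum over `c`
  have hsum : ∀ i, (h i : ℂ) * ∑ a ∈ Finset.Ico (-(m i : ℤ)) (m i), ∑ c ∈ W i, u i a c =
      ∑' c, ∫ p, S i c p := by
    intro i
    rw [Finset.sum_comm, Finset.mul_sum, tsum_eq_sum (s := W i)]
    · refine Finset.sum_congr rfl fun c hc => ?_
      rw [← integral_stp _ _ _ (hh i)]
      refine integral_congr_ae (Filter.Eventually.of_forall fun p => ?_)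
      simp [hS, hc]
    · intro c hc
      simp [hS, hc]
  simp only [hsum]
  set J : ℝ := ∫ p : ℝ, Real.exp (-(c0 * |p|)) with hJ
  refine tendsto_tsum_of_dominated_convergence (bound := fun c : ℤ × ℤ =>
    |B| * (Real.exp (-(c0 * |(c.1 : ℝ)|)) * Real.exp (-(c0 * |(c.2 : ℝ)|))) * J) ?_ hint ?_
  · have h1 := (summable_exp_abs c0 hc0).mul_of_nonneg (summable_exp_abs c0 hc0)
      (fun _ => (Real.exp_pos _).le) (fun _ => (Real.exp_pos _).le)
    exact (h1.mul_left |B|).mul_right J
  · refine Filter.Eventually.of_forall fun i c => ?_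
    refine (norm_integral_le_integral_norm _).trans ?_
    rw [hJ, ← integral_const_mul]
    refine integral_mono_of_nonneg (Filter.Eventually.of_forall fun p => norm_nonneg _)
      (hI.const_mul _) (Filter.Eventually.of_forall fun p => hSb i c p)

end

end Run7.h281.QW
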